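import Pool.Agent.helper50.QD.Sph

open Metric Set Topology Filter

namespace Pool.Agent.helper50.QD

open Pool.Agent.helper84.QD

/-- a coordinate of the sphere with pole at `p` (and junk value there) -/
noncomputable def mob (p : OnePoint ℂ) (q : OnePoint ℂ) : ℂ :=
  OnePoint.elim p (OnePoint.elim q (0 : ℂ) (fun x => x))
    (fun c => OnePoint.elim q (0 : ℂ) (fun x => (x - c)⁻¹))

theorem mob_inj {p q r : OnePoint ℂ} (hq : q ≠ p) (hr : r ≠ p) (h : mob p q = mob p r) :
    q = r := by
  induction p using OnePoint.rec with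
  | infty =>
    induction q using OnePoint.rec with
    | infty => exact absurd rfl hq
    | coe x =>
      induction r using OnePoint.rec with
      | infty => exact absurd rfl hr
      | coe y =>
        simp only [mob, OnePoint.elim_infty, OnePoint.elim_some] at h
        rw [h]
  | coe c =>
    induction q using OnePoint.rec with
    | infty =>
      induction r using OnePoint.rec with
      | infty => rfl
      | coe y =>
        simp only [mob, OnePoint.elim_infty, OnePoint.elim_some] at h
        exfalso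
        have h1 : y - c ≠ 0 := fun h0 => hr (by rw [sub_eq_zero.1 h0])
        exact inv_ne_zero h1 h.symm
    | coe x =>
      have h2 : x - c ≠ 0 := fun h0 => hq (by rw [sub_eq_zero.1 h0])
      induction r using OnePoint.rec with
      | infty =>
        simp only [mob, OnePoint.elim_infty, OnePoint.elim_some] at h
        exfalso
        exact inv_ne_zero h2 h
      | coe y =>
        simp only [mob, OnePoint.elim_some] at h
        have h3 := inv_injective h
        have h4 : x = y := by
          have := congrArg (fun t => t + c) h3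
          simpa using this
        rw [h4]

theorem mob_analytic {F : ℂ → OnePoint ℂ} {z : ℂ} (h : HolAt F z) {p : OnePoint ℂ}
    (hp : F z ≠ p) : AnalyticAt ℂ (fun w => mob p (F w)) z := by
  obtain ⟨g, hg, h1 | h1⟩ := h
  · have hz := h1.self_of_nhds
    rw [hz] at hp
    induction p using OnePoint.rec with
    | infty =>
      refine hg.congr ?_
      filter_upwards [h1] with w hw
      simp only [hw, mob, OnePoint.elim_infty, OnePoint.elim_some]
    | coe c =>
      have h2 : g z - c ≠ 0 := fun h0 => hp (by rw [sub_eq_zero.1 h0])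
      have h3 : AnalyticAt ℂ (fun w => (g w - c)⁻¹) z := (hg.sub analyticAt_const).inv h2
      refine h3.congr ?_
      filter_upwards [h1] with w hw
      simp only [hw, mob, OnePoint.elim_some]
  · have hz := h1.self_of_nhds
    rw [hz] at hp
    induction p using OnePoint.rec with
    | infty =>
      have h2 : g z ≠ 0 := by
        intro h0
        rw [h0, sinv_zero] at hp
        exact hp rfl
      refine (hg.inv h2).congr ?_
      filter_upwards [h1, hg.continuousAt.eventually_ne h2] with w hw hw2
      rw [hw, sinv_coe_of_ne hw2]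
      simp only [mob, OnePoint.elim_infty, OnePoint.elim_some, Pi.inv_apply]
    | coe c =>
      have h2 : 1 - c * g z ≠ 0 := by
        intro h0
        have h3 : c * g z = 1 := (sub_eq_zero.1 h0).symm
        have h4 : g z ≠ 0 := right_ne_zero_of_mul_eq_one h3
        apply hp
        rw [sinv_coe_of_ne h4, eq_inv_of_mul_eq_one_left h3]
      have h3 : AnalyticAt ℂ (fun w => g w / (1 - c * g w)) z :=
        hg.div (analyticAt_const.sub (analyticAt_const.mul hg)) h2
      refine h3.congr ?_
      filter_upwards [h1] with w hw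
      rw [hw]
      by_cases hw2 : g w = 0
      · rw [hw2, sinv_zero]
        simp only [mob, OnePoint.elim_infty, OnePoint.elim_some, zero_div]
      · rw [sinv_coe_of_ne hw2]
        simp only [mob, OnePoint.elim_some]
        have h5 : (g w)⁻¹ - c = (1 - c * g w) / g w := by
          field_simp
        rw [h5, inv_div]

theorem jordan_closed {Γ : Set (OnePoint ℂ)} (hΓ : IsJordanCurve Γ) : IsClosed Γ := by
  obtain ⟨e, he, -, rfl⟩ := hΓ
  exact (isCompact_range he).isClosed

theorem jordan_nonempty {Γ : Set (OnePoint ℂ)} (hΓ : IsJordanCurve Γ) : Γ.Nonempty := by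
  obtain ⟨e, he, -, rfl⟩ := hΓ
  exact ⟨e 1, mem_range_self _⟩

/-- the finite-valued coordinate of `F` off `F⁻¹(Γ)`. -/
theorem adm_coord {Γ : Set (OnePoint ℂ)} (hΓ : IsJordanCurve Γ) {F : ℂ → OnePoint ℂ} {R : ℝ}
    (h : Adm Γ F R) : ∃ k : ℂ → ℂ,
    IsOpen (ball 0 R \ ovr Γ F (ball 0 R)) ∧
    AnalyticOnNhd ℂ k (ball 0 R \ ovr Γ F (ball 0 R)) ∧
    (∀ z ∈ ball 0 R \ ovr Γ F (ball 0 R), ¬ (∀ᶠ w in 𝓝 z, k w = k z)) ∧
    (∀ a ∈ ball 0 R \ ovr Γ F (ball 0 R), ∀ b ∈ ball 0 R \ ovr Γ F (ball 0 R),
      (k a = k b ↔ F a = F b)) := by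
  obtain ⟨p, hp⟩ := jordan_nonempty hΓ
  have hopen : IsOpen (ball (0 : ℂ) R \ ovr Γ F (ball 0 R)) := by
    rw [isOpen_iff_mem_nhds]
    rintro z ⟨hz1, hz2⟩
    have hz3 : F z ∈ Γᶜ := fun hF => hz2 ⟨hz1, hF⟩
    have h1 : ∀ᶠ w in 𝓝 z, F w ∈ Γᶜ :=
      (HolAt.continuousAt (h.hol z hz1)).eventually_mem
        ((jordan_closed hΓ).isOpen_compl.mem_nhds hz3)
    filter_upwards [h1, isOpen_ball.mem_nhds hz1] with w hw1 hw2
    exact ⟨hw2, fun hw3 => hw1 hw3.2⟩
  have hne : ∀ z ∈ ball (0 : ℂ) R \ ovr Γ F (ball 0 R), F z ≠ p := by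
    rintro z ⟨hz1, hz2⟩ rfl
    exact hz2 ⟨hz1, hp⟩
  refine ⟨fun w => mob p (F w), hopen, ?_, ?_, ?_⟩
  · intro z hz
    exact mob_analytic (h.hol z hz.1) (hne z hz)
  · intro z hz hc
    apply adm_nc h hz.1
    filter_upwards [hc, hopen.mem_nhds hz] with w hw1 hw2
    exact mob_inj (hne w hw2) (hne z hz) hw1
  · intro a ha b hb
    exact ⟨fun hab => mob_inj (hne a ha) (hne b hb) hab, fun hab => by simp only [hab]⟩

end Pool.Agent.helper50.QD
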