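import Pool.Agent.helper50.QD.Two

open Metric Set Topology Filter

namespace Pool.Agent.helper50.QD

open Pool.Agent.helper84.QD

theorem circle_arc (t0 : Circle) {N : Set Circle} (hN : N ∈ 𝓝 t0) :
    ∀ᶠ t in 𝓝 t0, ∃ J ⊆ N, IsCompact J ∧ IsPreconnected J ∧ t0 ∈ J ∧ t ∈ J := by
  set f : ℝ → Circle := fun θ => t0 * Circle.exp θ with hf
  have hfc : Continuous f := continuous_const.mul Circle.exp.continuous
  have hf0 : f 0 = t0 := by simp [hf]
  have hpre : f ⁻¹' N ∈ 𝓝 (0 : ℝ) := hfc.continuousAt.preimage_mem_nhds (by rw [hf0]; exact hN)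
  obtain ⟨η, hη, hball⟩ := Metric.mem_nhds_iff.1 hpre
  have hq : ContinuousAt (fun t : Circle => Complex.arg ((t / t0 : Circle) : ℂ)) t0 := by
    have e1 : ContinuousAt (fun t : Circle => ((t / t0 : Circle) : ℂ)) t0 :=
      (continuous_subtype_val.comp (continuous_id.div' continuous_const)).continuousAt
    have e2 : ((t0 / t0 : Circle) : ℂ) ∈ Complex.slitPlane := by
      rw [div_self']
      simp
    exact ContinuousAt.comp (g := Complex.arg) (Complex.continuousAt_arg e2) e1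
  have hq0 : Complex.arg ((t0 / t0 : Circle) : ℂ) = 0 := by
    rw [div_self']; simp
  have hev : ∀ᶠ t in 𝓝 t0, |Complex.arg ((t / t0 : Circle) : ℂ)| < η := by
    have := hq.tendsto
    simp only [hq0] at this
    have h2 := this (ball_mem_nhds (0 : ℝ) hη)
    filter_upwards [h2] with t ht
    have ht' : Complex.arg ((t / t0 : Circle) : ℂ) ∈ ball (0 : ℝ) η := ht
    rwa [mem_ball_zero_iff, Real.norm_eq_abs] at ht'
  filter_upwards [hev] with t ht
  set θ := Complex.arg ((t / t0 : Circle) : ℂ) with hθ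
  refine ⟨f '' uIcc 0 θ, ?_, isCompact_uIcc.image hfc, isPreconnected_uIcc.image f hfc.continuousOn,
    ⟨0, left_mem_uIcc, hf0⟩, ⟨θ, right_mem_uIcc, ?_⟩⟩
  · rintro _ ⟨x, hx, rfl⟩
    apply hball
    rw [mem_ball_zero_iff, Real.norm_eq_abs]
    have : |x| ≤ |θ| := by
      have := abs_sub_left_of_mem_uIcc hx
      simpa using this
    exact this.trans_lt ht
  · simp only [hf, hθ]
    rw [Circle.exp_arg]
    exact mul_div_cancel t0 t

/-- the finite part -/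
noncomputable def toC (p : OnePoint ℂ) : ℂ := OnePoint.elim p 0 id

theorem toC_coe (v : ℂ) : toC (v : OnePoint ℂ) = v := rfl

theorem continuousAt_toC (v : ℂ) : ContinuousAt toC (v : OnePoint ℂ) := by
  rw [OnePoint.continuousAt_coe]
  exact continuousAt_id

theorem local_arc {Γ : Set (OnePoint ℂ)} {e : Circle → OnePoint ℂ} (he : Continuous e)
    (hei : Function.Injective e) (her : range e = Γ) {F : ℂ → OnePoint ℂ} {R : ℝ}
    (h : Adm Γ F R) {z : ℂ} (hz : z ∈ ovr Γ F (ball 0 R)) {t0 : Circle} (ht0 : e t0 = F z)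
    {ε : ℝ} (hε : 0 < ε) :
    ∀ᶠ t in 𝓝 t0, ∃ w ∈ ovr Γ F (ball 0 R) ∩ ball z ε, F w = e t ∧
      ∃ K ⊆ ovr Γ F (ball 0 R) ∩ ball z ε, IsCompact K ∧ IsPreconnected K ∧ z ∈ K ∧ w ∈ K := by
  obtain ⟨σ, g, hg, h1, hd⟩ := adm_regular ⟨e, he, hei, her⟩ h hz
  obtain ⟨φ, hφa, hφ0, hφr, -⟩ := exists_inverse hg hd
  have hFz := h1.self_of_nhds
  have hφt : Tendsto φ (𝓝 (g z)) (𝓝 z) := by
    have := hφa.continuousAt.tendsto
    rwa [hφ0] at this
  set N0 : Set ℂ := {v | ContinuousAt φ v ∧ φ v ∈ ball z ε ∧ φ v ∈ ball (0 : ℂ) R ∧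
    F (φ v) = σ ((g (φ v) : ℂ) : OnePoint ℂ) ∧ g (φ v) = v} with hN0
  have hN0m : N0 ∈ 𝓝 (g z) := by
    filter_upwards [hφa.eventually_analyticAt, hφt (ball_mem_nhds z hε),
      hφt (isOpen_ball.mem_nhds hz.1), hφt.eventually h1, hφr] with v a1 a2 a3 a4 a5
    exact ⟨a1.continuousAt, a2, a3, a4, a5⟩
  have ht : Tendsto (fun t => σ.symm (e t)) (𝓝 t0) (𝓝 ((g z : ℂ) : OnePoint ℂ)) := by
    have : σ.symm (e t0) = ((g z : ℂ) : OnePoint ℂ) := by
      rw [ht0, hFz, Homeomorph.symm_apply_apply]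
    rw [← this]
    exact (σ.symm.continuous.comp he).continuousAt.tendsto
  rw [OnePoint.nhds_coe_eq] at ht
  have hN : {t | ∃ v ∈ N0, σ.symm (e t) = (v : OnePoint ℂ)} ∈ 𝓝 t0 := by
    have h5 := ht.eventually (show ∀ᶠ p in map (fun v : ℂ => (v : OnePoint ℂ)) (𝓝 (g z)),
        ∃ v ∈ N0, p = (v : OnePoint ℂ) from by
      rw [eventually_map]
      filter_upwards [hN0m] with v hv
      exact ⟨v, hv, rfl⟩)
    exact h5
  set Φ : Circle → ℂ := fun t => φ (toC (σ.symm (e t))) with hΦ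
  have hΦ0 : Φ t0 = z := by
    simp only [hΦ]
    rw [ht0, hFz, Homeomorph.symm_apply_apply, toC_coe, hφ0]
  filter_upwards [circle_arc t0 hN] with t htt
  obtain ⟨J, hJN, hJc, hJp, hJ0, hJt⟩ := htt
  have hΦc : ContinuousOn Φ J := by
    intro s hs
    obtain ⟨v, hv, hsv⟩ := hJN hs
    apply ContinuousAt.continuousWithinAt
    have e1 : ContinuousAt (fun t => σ.symm (e t)) s := (σ.symm.continuous.comp he).continuousAt
    have e2 : ContinuousAt (fun t => toC (σ.symm (e t))) s :=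
      ContinuousAt.comp (g := toC) (by rw [hsv]; exact continuousAt_toC v) e1
    exact ContinuousAt.comp (g := φ) (by rw [hsv, toC_coe]; exact hv.1) e2
  have hΦE : ∀ s ∈ J, Φ s ∈ ovr Γ F (ball 0 R) ∩ ball z ε ∧ F (Φ s) = e s := by
    intro s hs
    obtain ⟨v, hv, hsv⟩ := hJN hs
    have hΦs : Φ s = φ v := by simp only [hΦ]; rw [hsv, toC_coe]
    have hF : F (Φ s) = e s := by
      rw [hΦs, hv.2.2.2.1, hv.2.2.2.2, ← hsv, Homeomorph.apply_symm_apply]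
    refine ⟨⟨⟨by rw [hΦs]; exact hv.2.2.1, ?_⟩, by rw [hΦs]; exact hv.2.1⟩, hF⟩
    rw [hF, ← her]
    exact mem_range_self s
  refine ⟨Φ t, (hΦE t hJt).1, (hΦE t hJt).2, Φ '' J, ?_, hJc.image_of_continuousOn hΦc,
    hJp.image Φ hΦc, ⟨t0, hJ0, hΦ0⟩, ⟨t, hJt, rfl⟩⟩
  rintro _ ⟨s, hs, rfl⟩
  exact (hΦE s hs).1

/-- local structure: nearby points of `F⁻¹(Γ)` are joined by small continua of `F⁻¹(Γ)`. -/
theorem adm_local {Γ : Set (OnePoint ℂ)} (hΓ : IsJordanCurve Γ) {F : ℂ → OnePoint ℂ} {R : ℝ}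
    (h : Adm Γ F R) {z : ℂ} (hz : z ∈ ovr Γ F (ball 0 R)) {ε : ℝ} (hε : 0 < ε) :
    (∃ δ > 0, ∀ w ∈ ovr Γ F (ball 0 R) ∩ ball z δ, ∃ K ⊆ ovr Γ F (ball 0 R) ∩ ball z ε,
      IsCompact K ∧ IsPreconnected K ∧ z ∈ K ∧ w ∈ K) ∧
    ∃ w ∈ ovr Γ F (ball 0 R) ∩ ball z ε, w ≠ z := by
  obtain ⟨e, he, hei, her⟩ := hΓ
  obtain ⟨t0, ht0⟩ : F z ∈ range e := by rw [her]; exact hz.2
  have hV := local_arc he hei her h hz ht0 hε
  constructor
  · have hemb : IsClosedEmbedding e := he.isClosedEmbedding hei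
    rw [hemb.isInducing.nhds_eq_comap, ht0] at hV
    obtain ⟨N2, hN2, hsub⟩ := mem_comap.1 hV
    have hFc : ContinuousAt F z := HolAt.continuousAt (h.hol z hz.1)
    obtain ⟨δ, hδ, hball⟩ := Metric.mem_nhds_iff.1 (hFc.preimage_mem_nhds hN2)
    refine ⟨δ, hδ, fun w hw => ?_⟩
    obtain ⟨t, ht⟩ : F w ∈ range e := by rw [her]; exact hw.1.2
    have htV : t ∈ e ⁻¹' N2 := by
      rw [mem_preimage, ht]
      exact hball hw.2
    obtain ⟨w', hw', hFw', K, hK1, hK2, hK3, hK4, hK5⟩ := hsub htV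
    have : w' = w := h.inj w' hw'.1.1 w hw.1.1 hw'.1.2 (by rw [hFw', ht])
    rw [this] at hK5
    exact ⟨K, hK1, hK2, hK3, hK4, hK5⟩
  · have h2 : ∀ᶠ t in 𝓝[≠] t0, ∃ w ∈ ovr Γ F (ball 0 R) ∩ ball z ε, w ≠ z := by
      filter_upwards [nhdsWithin_le_nhds hV, self_mem_nhdsWithin] with t ht1 ht2
      obtain ⟨w, hw, hFw, -⟩ := ht1
      refine ⟨w, hw, fun hwz => ht2 (hei ?_)⟩
      rw [ht0, ← hFw, hwz]
    exact h2.exists.choose_spec

/-- two points of a component lie on a compact connected subset. -/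
theorem comp_join {Γ : Set (OnePoint ℂ)} (hΓ : IsJordanCurve Γ) {F : ℂ → OnePoint ℂ} {R : ℝ}
    (h : Adm Γ F R) {z w : ℂ} (hz : z ∈ ovr Γ F (ball 0 R))
    (hw : w ∈ connectedComponentIn (ovr Γ F (ball 0 R)) z) :
    ∃ K ⊆ ovr Γ F (ball 0 R), IsCompact K ∧ IsPreconnected K ∧ z ∈ K ∧ w ∈ K := by
  have hsub : connectedComponentIn (ovr Γ F (ball 0 R)) z ⊆ ovr Γ F (ball 0 R) :=
    connectedComponentIn_subset _ _
  refine isPreconnected_connectedComponentIn.induction₂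
    (fun a b => ∃ K ⊆ ovr Γ F (ball 0 R), IsCompact K ∧ IsPreconnected K ∧ a ∈ K ∧ b ∈ K)
    ?_ ?_ ?_ (mem_connectedComponentIn hz) hw
  · intro x hx
    obtain ⟨⟨δ, hδ, hloc⟩, -⟩ := adm_local hΓ h (hsub hx) one_pos
    filter_upwards [nhdsWithin_le_nhds (ball_mem_nhds x hδ), self_mem_nhdsWithin] with y hy1 hy2
    obtain ⟨K, hK1, hK2⟩ := hloc y ⟨hsub hy2, hy1⟩
    exact ⟨K, hK1.trans inter_subset_left, hK2⟩
  · rintro x y u - - - ⟨K1, a1, a2, a3, a4, a5⟩ ⟨K2, b1, b2, b3, b4, b5⟩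
    exact ⟨K1 ∪ K2, union_subset a1 b1, a2.union b2, a3.union y a5 b4 b3, Or.inl a4, Or.inr b5⟩
  · rintro x y - - ⟨K, a1, a2, a3, a4, a5⟩
    exact ⟨K, a1, a2, a3, a5, a4⟩

theorem comp_pos {Γ : Set (OnePoint ℂ)} (hΓ : IsJordanCurve Γ) {F : ℂ → OnePoint ℂ} {R : ℝ}
    (h : Adm Γ F R) {z : ℂ} (hz : z ∈ ovr Γ F (ball 0 R)) :
    0 < Metric.ediam (connectedComponentIn (ovr Γ F (ball 0 R)) z) := by
  obtain ⟨⟨δ, hδ, hloc⟩, -⟩ := adm_local hΓ h hz one_pos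
  obtain ⟨-, w, hw, hwz⟩ := adm_local hΓ h hz hδ
  obtain ⟨K, hK1, hK2, hK3, hK4, hK5⟩ := hloc w hw
  have hKC : K ⊆ connectedComponentIn (ovr Γ F (ball 0 R)) z :=
    hK3.subset_connectedComponentIn hK4 (hK1.trans inter_subset_left)
  have h1 : edist z w ≤ Metric.ediam (connectedComponentIn (ovr Γ F (ball 0 R)) z) :=
    Metric.edist_le_ediam_of_mem (hKC hK4) (hKC hK5)
  exact lt_of_lt_of_le (edist_pos.2 hwz.symm) h1

theorem comp_compact_unique {Γ : Set (OnePoint ℂ)} (hΓ : IsJordanCurve Γ)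
    {F : ℂ → OnePoint ℂ} {R : ℝ} (h : Adm Γ F R) {C : Set ℂ} (hC : C ∈ Comps (ovr Γ F (ball 0 R)))
    (hCk : IsCompact C) : ovr Γ F (ball 0 R) = C := by
  obtain ⟨e, he, hei, her⟩ := hΓ
  obtain ⟨x, hx, rfl⟩ := hC
  have hsub : connectedComponentIn (ovr Γ F (ball 0 R)) x ⊆ ovr Γ F (ball 0 R) :=
    connectedComponentIn_subset _ _
  set C := connectedComponentIn (ovr Γ F (ball 0 R)) x with hCdef
  have hFc : ContinuousOn F C := fun w hw =>
    (HolAt.continuousAt (h.hol w (hsub hw).1)).continuousWithinAt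
  have hFC : IsClosed (F '' C) := (hCk.image_of_continuousOn hFc).isClosed
  set D : Set Circle := e ⁻¹' (F '' C) with hD
  have hDc : IsClosed D := hFC.preimage he
  have hDo : IsOpen D := by
    rw [isOpen_iff_mem_nhds]
    rintro t ⟨w, hw, hwt⟩
    filter_upwards [local_arc he hei her h (hsub hw) hwt.symm one_pos] with s hs
    obtain ⟨w', hw', hFw', K, hK1, hK2, hK3, hK4, hK5⟩ := hs
    refine ⟨w', ?_, hFw'⟩
    have hKC : K ⊆ connectedComponentIn (ovr Γ F (ball 0 R)) w :=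
      hK3.subset_connectedComponentIn hK4 (hK1.trans inter_subset_left)
    have hww : connectedComponentIn (ovr Γ F (ball 0 R)) w = C :=
      (connectedComponentIn_eq hw).symm
    rw [← hww]
    exact hKC hK5
  have hDne : D.Nonempty := by
    obtain ⟨t, ht⟩ : F x ∈ range e := by rw [her]; exact hx.2
    exact ⟨t, x, mem_connectedComponentIn hx, ht.symm⟩
  have hDu : D = univ := IsClopen.eq_univ ⟨hDc, hDo⟩ hDne
  refine Subset.antisymm ?_ hsub
  intro y hy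
  obtain ⟨t, ht⟩ : F y ∈ range e := by rw [her]; exact hy.2
  obtain ⟨c, hc, hct⟩ : t ∈ D := by rw [hDu]; exact mem_univ t
  have : y = c := h.inj y hy.1 c (hsub hc).1 hy.2 (by rw [hct, ht])
  rw [this]
  exact hc

end Pool.Agent.helper50.QD
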