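import Mathlib

open Metric Set Topology Filter

namespace Pool.Agent.helper50.QD

/-- a nonconstant analytic function has no accumulation of critical points. -/
theorem deriv_ne_punctured {h : ℂ → ℂ} {c : ℂ} (hh : AnalyticAt ℂ h c)
    (hnc : ¬ (∀ᶠ w in 𝓝 c, h w = h c)) : ∀ᶠ w in 𝓝[≠] c, deriv h w ≠ 0 := by
  rcases hh.deriv.eventually_eq_zero_or_eventually_ne_zero with h0 | h1
  · exfalso
    apply hnc
    have hd : ∀ᶠ w in 𝓝 c, AnalyticAt ℂ h w := hh.eventually_analyticAt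
    obtain ⟨r, hr, hb⟩ := Metric.eventually_nhds_iff_ball.1 (h0.and hd)
    filter_upwards [Metric.ball_mem_nhds c hr] with w hw
    exact Metric.isOpen_ball.is_const_of_deriv_eq_zero (convex_ball c r).isPreconnected
      (fun z hz => (hb z hz).2.differentiableAt.differentiableWithinAt)
      (fun z hz => (hb z hz).1) hw (Metric.mem_ball_self hr)
  · exact h1

/-- local injectivity at a noncritical point -/
theorem locInj_of_deriv_ne {h : ℂ → ℂ} {c : ℂ} (hh : AnalyticAt ℂ h c) (hd : deriv h c ≠ 0) :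
    ∃ U ∈ 𝓝 c, InjOn h U := by
  have hs := hh.hasStrictDerivAt
  have hl := HasStrictDerivAt.eventually_left_inverse hs hd
  refine ⟨{x | HasStrictDerivAt.localInverse h (deriv h c) c hs hd (h x) = x}, hl, ?_⟩
  intro x hx y hy hxy
  rw [mem_ofPred_eq] at hx hy
  rw [← hx, ← hy, hxy]

theorem key_pairs {Ω : Set ℂ} (hΩ : IsOpen Ω) {h : ℂ → ℂ} (hh : AnalyticOnNhd ℂ h Ω)
    (hnc : ∀ z ∈ Ω, ¬ (∀ᶠ w in 𝓝 z, h w = h z)) {T : ℂ → ℝ} {M : ℝ}
    (hTc : ContinuousOn T (closedBall 0 1)) (hT0 : ∀ z ∈ sphere (0 : ℂ) 1, T z = 0)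
    (hTM : ∀ z ∈ closedBall (0 : ℂ) 1, T z ≤ M)
    (hTh : ∀ z ∈ Ω ∩ ball 0 1, ∃ g : ℂ → ℂ, AnalyticAt ℂ g z ∧ ∀ᶠ w in 𝓝 z, T w = (g w).re)
    (hcl : closure {p : ℂ × ℂ | p.1 ∈ Ω ∩ closedBall 0 1 ∧ p.2 ∈ Ω ∩ closedBall 0 1 ∧
      p.1 ≠ p.2 ∧ h p.1 = h p.2} ⊆ Ω ×ˢ Ω)
    {a b : ℂ} (ha : a ∈ Ω ∩ ball 0 1) (hb : b ∈ Ω ∩ ball 0 1) (hab : a ≠ b)
    (hhab : h a = h b) : T a + T b ≤ M := by
  by_contra hcon
  push Not at hcon
  set P0 : Set (ℂ × ℂ) := {p : ℂ × ℂ | p.1 ∈ Ω ∩ closedBall 0 1 ∧ p.2 ∈ Ω ∩ closedBall 0 1 ∧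
      p.1 ≠ p.2 ∧ h p.1 = h p.2} with hP0
  set S := closure P0 with hS
  have hP0B : P0 ⊆ closedBall 0 1 ×ˢ closedBall 0 1 := fun p hp => ⟨hp.1.2, hp.2.1.2⟩
  have hSB : S ⊆ closedBall 0 1 ×ˢ closedBall 0 1 :=
    closure_minimal hP0B (isClosed_closedBall.prod isClosed_closedBall)
  have hScomp : IsCompact S :=
    ((isCompact_closedBall (0 : ℂ) 1).prod (isCompact_closedBall (0 : ℂ) 1)).of_isClosed_subset
      isClosed_closure hSB
  have hcont1 : ∀ p ∈ S, ContinuousAt (fun p : ℂ × ℂ => h p.1) p := fun p hp =>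
    ContinuousAt.comp' (f := Prod.fst) (g := h) (hh p.1 (hcl hp).1).continuousAt continuousAt_fst
  have hcont2 : ∀ p ∈ S, ContinuousAt (fun p : ℂ × ℂ => h p.2) p := fun p hp =>
    ContinuousAt.comp' (f := Prod.snd) (g := h) (hh p.2 (hcl hp).2).continuousAt continuousAt_snd
  have hSh : ∀ p ∈ S, h p.1 = h p.2 := by
    intro p hp
    have hne : (𝓝[P0] p).NeBot := mem_closure_iff_nhdsWithin_neBot.1 hp
    have e1 : Tendsto (fun q : ℂ × ℂ => h q.1) (𝓝[P0] p) (𝓝 (h p.1)) :=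
      ((hcont1 p hp).tendsto).mono_left nhdsWithin_le_nhds
    have e2 : Tendsto (fun q : ℂ × ℂ => h q.2) (𝓝[P0] p) (𝓝 (h p.2)) :=
      ((hcont2 p hp).tendsto).mono_left nhdsWithin_le_nhds
    refine tendsto_nhds_unique e1 (e2.congr' ?_)
    filter_upwards [self_mem_nhdsWithin] with q hq
    exact hq.2.2.2.symm
  have hSsymm : ∀ p ∈ S, p.swap ∈ S := by
    intro p hp
    have : MapsTo Prod.swap P0 P0 := fun q hq => ⟨hq.2.1, hq.1, hq.2.2.1.symm, hq.2.2.2.symm⟩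
    exact this.closure continuous_swap hp
  have hdiag : ∀ c : ℂ, (c, c) ∈ S → deriv h c = 0 := by
    intro c hc
    by_contra hd
    obtain ⟨U, hU, hinj⟩ := locInj_of_deriv_ne (hh c (hcl hc).1) hd
    have hUU : U ×ˢ U ∈ 𝓝 (c, c) := prod_mem_nhds hU hU
    obtain ⟨q, hqU, hq⟩ := mem_closure_iff_nhds.1 hc _ hUU
    exact hq.2.2.1 (hinj hqU.1 hqU.2 hq.2.2.2)
  -- the critical points are finite
  set A : Set ℂ := Prod.fst '' S with hA
  have hAcomp : IsCompact A := hScomp.image continuous_fst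
  have hAΩ : A ⊆ Ω := by
    rintro _ ⟨p, hp, rfl⟩
    exact (hcl hp).1
  have hZfin : {c ∈ A | deriv h c = 0}.Finite := by
    by_contra hinf
    obtain ⟨c, hcA, hc⟩ := Set.Infinite.exists_accPt_of_subset_isCompact hinf hAcomp
      (fun z hz => hz.1)
    have h1 := deriv_ne_punctured (hh c (hAΩ hcA)) (hnc c (hAΩ hcA))
    rw [accPt_iff_frequently_nhdsNE] at hc
    obtain ⟨w, hw1, hw2⟩ := (hc.and_eventually h1).exists
    exact hw2 hw1.2
  set CV : Set ℂ := h '' {c ∈ A | deriv h c = 0} with hCV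
  have hCVfin : CV.Finite := hZfin.image h
  set Pl : ℂ → ℂ := fun w => ∏ v ∈ hCVfin.toFinset, (w - v) with hPl
  have hPl0 : ∀ w, Pl w = 0 ↔ w ∈ CV := by
    intro w
    simp only [hPl, Finset.prod_eq_zero_iff, hCVfin.mem_toFinset]
    constructor
    · rintro ⟨v, hv, hwv⟩
      rwa [sub_eq_zero.1 hwv]
    · intro hw
      exact ⟨w, hw, sub_self w⟩
  have hPld : Differentiable ℂ Pl := by
    intro w
    simp only [hPl]
    fun_prop
  have hPlc : Continuous Pl := hPld.continuous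
  -- move to a regular pair
  have hMab : a ∈ closedBall (0 : ℂ) 1 ∧ b ∈ closedBall (0 : ℂ) 1 :=
    ⟨ball_subset_closedBall ha.2, ball_subset_closedBall hb.2⟩
  obtain ⟨p1, hp1, hp1M, hp1P⟩ : ∃ p ∈ P0, M < T p.1 + T p.2 ∧ Pl (h p.1) ≠ 0 := by
    have hTa : ContinuousAt T a := hTc.continuousAt
      (mem_of_superset (isOpen_ball.mem_nhds ha.2) ball_subset_closedBall)
    have hTb : ContinuousAt T b := hTc.continuousAt
      (mem_of_superset (isOpen_ball.mem_nhds hb.2) ball_subset_closedBall)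
    have hTab : ∀ᶠ p : ℂ × ℂ in 𝓝 (a, b), M < T p.1 + T p.2 := by
      have : ContinuousAt (fun p : ℂ × ℂ => T p.1 + T p.2) (a, b) :=
        (ContinuousAt.comp' (f := Prod.fst) (g := T) hTa continuousAt_fst).add
          (ContinuousAt.comp' (f := Prod.snd) (g := T) hTb continuousAt_snd)
      exact this.eventually (lt_mem_nhds hcon)
    have hne : ∀ᶠ p : ℂ × ℂ in 𝓝 (a, b), p.1 ≠ p.2 :=
      (isOpen_ne_fun continuous_fst continuous_snd).mem_nhds hab
    have hin : ∀ᶠ p : ℂ × ℂ in 𝓝 (a, b), p.1 ∈ Ω ∩ ball 0 1 ∧ p.2 ∈ Ω ∩ ball 0 1 :=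
      prod_mem_nhds ((hΩ.inter isOpen_ball).mem_nhds ha) ((hΩ.inter isOpen_ball).mem_nhds hb)
    obtain ⟨U, hU, V, hV, hUV⟩ := mem_nhds_prod_iff.1 (hTab.and (hne.and hin))
    have ho : ∀ c ∈ Ω, 𝓝 (h c) ≤ map h (𝓝 c) := by
      intro c hc
      rcases (hh c hc).eventually_constant_or_nhds_le_map_nhds with h1 | h1
      · exact absurd h1 (hnc c hc)
      · exact h1
    have hUi : h '' U ∈ 𝓝 (h a) := ho a ha.1 (image_mem_map hU)
    have hVi : h '' V ∈ 𝓝 (h a) := by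
      rw [hhab]
      exact ho b hb.1 (image_mem_map hV)
    have hCVi : ∀ᶠ w in 𝓝[≠] (h a), w ∉ CV := by
      have h2 : (CV \ {h a})ᶜ ∈ 𝓝 (h a) :=
        (hCVfin.subset sdiff_subset).isClosed.isOpen_compl.mem_nhds (fun hx => hx.2 rfl)
      filter_upwards [nhdsWithin_le_nhds h2, self_mem_nhdsWithin] with w hw1 hw2 hw3
      exact hw1 ⟨hw3, hw2⟩
    have hUVi : ∀ᶠ w in 𝓝[≠] (h a), w ∈ h '' U ∩ h '' V :=
      nhdsWithin_le_nhds (inter_mem hUi hVi)
    obtain ⟨w, ⟨hw1, hw2⟩, hw3⟩ := (hUVi.and hCVi).exists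
    obtain ⟨a', ha', hwa⟩ := hw1
    obtain ⟨b', hb', hwb⟩ := hw2
    have hm := hUV (mk_mem_prod ha' hb')
    refine ⟨(a', b'), ⟨⟨hm.2.2.1.1, ball_subset_closedBall hm.2.2.1.2⟩,
      ⟨hm.2.2.2.1, ball_subset_closedBall hm.2.2.2.2⟩, hm.2.1, hwa.trans hwb.symm⟩, hm.1, ?_⟩
    rw [Ne, hPl0]
    show h a' ∉ CV
    rw [hwa]
    exact hw3
  have hSne : S.Nonempty := ⟨p1, subset_closure hp1⟩
  -- continuity on S
  have hσc : ContinuousOn (fun p : ℂ × ℂ => T p.1 + T p.2) S := by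
    have h1 : ContinuousOn (fun p : ℂ × ℂ => T p.1) S :=
      hTc.comp continuousOn_fst (fun p hp => (hSB hp).1)
    have h2 : ContinuousOn (fun p : ℂ × ℂ => T p.2) S :=
      hTc.comp continuousOn_snd (fun p hp => (hSB hp).2)
    exact h1.add h2
  have hhc : ContinuousOn (fun p : ℂ × ℂ => h p.1) S := fun p hp =>
    (hcont1 p hp).continuousWithinAt
  have hPc : ContinuousOn (fun p : ℂ × ℂ => ‖Pl (h p.1)‖) S :=
    (hPlc.comp_continuousOn hhc).norm
  obtain ⟨B, hB⟩ : ∃ B : ℝ, ∀ p ∈ S, ‖Pl (h p.1)‖ ≤ B := by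
    obtain ⟨B, hB⟩ := hScomp.bddAbove_image hPc
    exact ⟨B, fun p hp => hB (mem_image_of_mem _ hp)⟩
  -- choice of n
  obtain ⟨n, hn⟩ : ∃ n : ℕ, Real.exp (n * M) * B <
      Real.exp (n * (T p1.1 + T p1.2)) * ‖Pl (h p1.1)‖ := by
    have hpos : 0 < ‖Pl (h p1.1)‖ := norm_pos_iff.2 hp1P
    have hd : 0 < T p1.1 + T p1.2 - M := by linarith
    have hlim : Tendsto (fun n : ℕ => Real.exp (n * (T p1.1 + T p1.2 - M))) atTop atTop :=
      Real.tendsto_exp_atTop.comp (tendsto_natCast_atTop_atTop.atTop_mul_const hd)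
    obtain ⟨n, hn⟩ := (hlim.eventually_gt_atTop (B / ‖Pl (h p1.1)‖)).exists
    refine ⟨n, ?_⟩
    rw [div_lt_iff₀ hpos] at hn
    have : Real.exp (n * (T p1.1 + T p1.2)) =
        Real.exp (n * M) * Real.exp (n * (T p1.1 + T p1.2 - M)) := by
      rw [← Real.exp_add]
      ring_nf
    rw [this, mul_assoc]
    exact mul_lt_mul_of_pos_left hn (Real.exp_pos _)
  set X : ℂ × ℂ → ℝ := fun p => Real.exp (n * (T p.1 + T p.2)) * ‖Pl (h p.1)‖ with hX
  have hXc : ContinuousOn X S :=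
    (Real.continuous_exp.comp_continuousOn (continuousOn_const.mul hσc)).mul hPc
  obtain ⟨pm, hpm, hmax⟩ := hScomp.exists_isMaxOn hSne hXc
  set C : Set (ℂ × ℂ) := {p ∈ S | X p = X pm} with hC
  have hCcomp : IsCompact C := by
    have : C = S ∩ X ⁻¹' {X pm} := by
      ext p; simp [hC]
    rw [this]
    exact hScomp.of_isClosed_subset
      (hXc.preimage_isClosed_of_isClosed isClosed_closure isClosed_singleton) inter_subset_left
  set W : Set ℂ := (fun p : ℂ × ℂ => h p.1) '' C with hW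
  have hWcomp : IsCompact W := hCcomp.image_of_continuousOn (hhc.mono (fun p hp => hp.1))
  have hWne : W.Nonempty := ⟨_, pm, ⟨hpm, rfl⟩, rfl⟩
  have hWopen : IsOpen W := by
    rw [isOpen_iff_mem_nhds]
    rintro _ ⟨p, ⟨hpS, hpX⟩, rfl⟩
    have hpmax : ∀ q ∈ S, X q ≤ X p := fun q hq => by
      rw [hpX]; exact hmax hq
    have hlt : Real.exp (n * M) * B < X p := lt_of_lt_of_le hn (hpmax p1 (subset_closure hp1))
    have hB0 : 0 ≤ B := (norm_nonneg _).trans (hB p hpS)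
    have hσ : M < T p.1 + T p.2 := by
      by_contra hle
      push Not at hle
      have h1 : X p ≤ Real.exp (n * M) * B := by
        apply mul_le_mul _ (hB p hpS) (norm_nonneg _) (Real.exp_pos _).le
        exact Real.exp_le_exp.2 (mul_le_mul_of_nonneg_left hle (Nat.cast_nonneg n))
      linarith
    have hPne : Pl (h p.1) ≠ 0 := by
      intro h0
      have h1 : X p = 0 := by simp [hX, h0]
      rw [h1] at hlt
      have := mul_nonneg (Real.exp_pos (n * M)).le hB0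
      linarith
    have hcv : h p.1 ∉ CV := fun hm => hPne ((hPl0 _).2 hm)
    have hM0 : ∀ z ∈ closedBall (0 : ℂ) 1, z ∉ ball (0 : ℂ) 1 → T z = 0 := by
      intro z hz hz'
      apply hT0
      rw [mem_sphere]
      rw [mem_closedBall] at hz
      rw [mem_ball, not_lt] at hz'
      exact le_antisymm hz hz'
    have hb1 : p.1 ∈ ball (0 : ℂ) 1 := by
      by_contra hx
      have := hM0 _ (hSB hpS).1 hx
      have := hTM _ (hSB hpS).2
      linarith
    have hb2 : p.2 ∈ ball (0 : ℂ) 1 := by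
      by_contra hx
      have := hM0 _ (hSB hpS).2 hx
      have := hTM _ (hSB hpS).1
      linarith
    have hΩ1 : p.1 ∈ Ω := (hcl hpS).1
    have hΩ2 : p.2 ∈ Ω := (hcl hpS).2
    have hd1 : deriv h p.1 ≠ 0 := fun h0 => hcv ⟨p.1, ⟨⟨p, hpS, rfl⟩, h0⟩, rfl⟩
    have hd2 : deriv h p.2 ≠ 0 := fun h0 =>
      hcv ⟨p.2, ⟨⟨p.swap, hSsymm p hpS, rfl⟩, h0⟩, (hSh p hpS).symm⟩
    have hne : p.1 ≠ p.2 := by
      intro he
      apply hd1
      apply hdiag
      have : p = (p.1, p.1) := Prod.ext rfl he.symm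
      rw [← this]
      exact hpS
    -- local inverses
    have hinv : ∀ c ∈ Ω, deriv h c ≠ 0 → ∃ φ : ℂ → ℂ, AnalyticAt ℂ φ (h c) ∧ φ (h c) = c ∧
        ∀ᶠ w in 𝓝 (h c), h (φ w) = w := by
      intro c hc hd
      have hs := (hh c hc).hasStrictDerivAt
      exact ⟨_, (hh c hc).analyticAt_localInverse hd,
        HasStrictFDerivAt.localInverse_apply_image .., 
        HasStrictDerivAt.eventually_right_inverse hs hd⟩
    obtain ⟨φ, hφa, hφ0, hφi⟩ := hinv p.1 hΩ1 hd1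
    obtain ⟨ψ, hψa, hψ0, hψi⟩ := hinv p.2 hΩ2 hd2
    rw [← hSh p hpS] at hψa hψ0 hψi
    obtain ⟨g1, hg1a, hg1⟩ := hTh p.1 ⟨hΩ1, hb1⟩
    obtain ⟨g2, hg2a, hg2⟩ := hTh p.2 ⟨hΩ2, hb2⟩
    have hφt : Tendsto φ (𝓝 (h p.1)) (𝓝 p.1) := by
      have := hφa.continuousAt.tendsto
      rwa [hφ0] at this
    have hψt : Tendsto ψ (𝓝 (h p.1)) (𝓝 p.2) := by
      have := hψa.continuousAt.tendsto
      rwa [hψ0] at this
    -- pairs near p
    have hpair : ∀ᶠ w in 𝓝 (h p.1), (φ w, ψ w) ∈ P0 := by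
      have h1 : ∀ᶠ w in 𝓝 (h p.1), φ w ∈ Ω ∩ ball 0 1 :=
        hφt ((hΩ.inter isOpen_ball).mem_nhds ⟨hΩ1, hb1⟩)
      have h2 : ∀ᶠ w in 𝓝 (h p.1), ψ w ∈ Ω ∩ ball 0 1 :=
        hψt ((hΩ.inter isOpen_ball).mem_nhds ⟨hΩ2, hb2⟩)
      have h3 : ∀ᶠ w in 𝓝 (h p.1), φ w ≠ ψ w :=
        (hφt.prodMk_nhds hψt).eventually
          ((isOpen_ne_fun continuous_fst continuous_snd).mem_nhds hne)
      filter_upwards [h1, h2, h3, hφi, hψi] with w hw1 hw2 hw3 hw4 hw5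
      exact ⟨⟨hw1.1, ball_subset_closedBall hw1.2⟩, ⟨hw2.1, ball_subset_closedBall hw2.2⟩, hw3,
        hw4.trans hw5.symm⟩
    -- the analytic function
    set G : ℂ → ℂ := fun w => Complex.exp (n * (g1 (φ w) + g2 (ψ w))) * Pl w with hG
    have hGX : ∀ᶠ w in 𝓝 (h p.1), ‖G w‖ = X (φ w, ψ w) := by
      filter_upwards [hφt.eventually hg1, hψt.eventually hg2, hφi] with w hw1 hw2 hw3
      simp only [hG, hX, norm_mul, Complex.norm_exp, hw1, hw2, hw3]
      congr 2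
      simp
    have hGa : AnalyticAt ℂ G (h p.1) := by
      have e1 : AnalyticAt ℂ (fun w => g1 (φ w)) (h p.1) :=
        AnalyticAt.fun_comp (by rw [hφ0]; exact hg1a) hφa
      have e2 : AnalyticAt ℂ (fun w => g2 (ψ w)) (h p.1) :=
        AnalyticAt.fun_comp (by rw [hψ0]; exact hg2a) hψa
      have e3 : AnalyticAt ℂ Pl (h p.1) := hPld.analyticAt _
      exact ((analyticAt_const.mul (e1.add e2)).cexp).mul e3
    have hGp : ‖G (h p.1)‖ = X p := by
      have h1 := hGX.self_of_nhds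
      rw [h1, hφ0, hψ0]
    have hloc : IsLocalMax (norm ∘ G) (h p.1) := by
      filter_upwards [hGX, hpair] with w hw1 hw2
      simp only [Function.comp]
      rw [hw1, hGp]
      exact hpmax _ (subset_closure hw2)
    have hcst := Complex.eventually_eq_of_isLocalMax_norm
      (hGa.eventually_analyticAt.mono fun w hw => hw.differentiableAt) hloc
    filter_upwards [hGX, hpair, hcst, hφi] with w hw1 hw2 hw3 hw4
    refine ⟨(φ w, ψ w), ⟨subset_closure hw2, ?_⟩, hw4⟩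
    rw [← hw1, hw3, hGp, hpX]
  -- conclusion
  have hclopen : IsClopen W := ⟨hWcomp.isClosed, hWopen⟩
  rcases isClopen_iff.1 hclopen with h1 | h1
  · exact hWne.ne_empty h1
  · rw [h1] at hWcomp
    exact noncompact_univ ℂ hWcomp

end Pool.Agent.helper50.QD
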