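import Pool.Agent.helper84.QD.Defs
import Pool.Agent.helper50.QD.Key

open Metric Set Topology Filter

namespace Pool.Agent.helper50.QD

open Pool.Agent.helper84.QD

theorem sinv_coe_of_ne {z : ℂ} (hz : z ≠ 0) :
    sinv (z : OnePoint ℂ) = ((z⁻¹ : ℂ) : OnePoint ℂ) := by
  simp [sinv, hz]

theorem sinv_zero : sinv ((0 : ℂ) : OnePoint ℂ) = OnePoint.infty := by simp [sinv]

theorem sinv_infty : sinv OnePoint.infty = ((0 : ℂ) : OnePoint ℂ) := by simp [sinv]

theorem sinv_sinv (p : OnePoint ℂ) : sinv (sinv p) = p := by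
  induction p using OnePoint.rec with
  | infty => rw [sinv_infty, sinv_zero]
  | coe z =>
    by_cases hz : z = 0
    · rw [hz, sinv_zero, sinv_infty]
    · rw [sinv_coe_of_ne hz, sinv_coe_of_ne (inv_ne_zero hz), inv_inv]

theorem continuous_sinv : Continuous sinv := by
  rw [continuous_iff_continuousAt]
  intro p
  induction p using OnePoint.rec with
  | infty =>
    rw [OnePoint.continuousAt_infty', sinv_infty]
    have h1 : Tendsto (fun z : ℂ => ((z⁻¹ : ℂ) : OnePoint ℂ)) (coclosedCompact ℂ)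
        (𝓝 ((0 : ℂ) : OnePoint ℂ)) := by
      rw [coclosedCompact_eq_cocompact, ← Metric.cobounded_eq_cocompact]
      exact (OnePoint.continuous_coe.tendsto 0).comp (tendsto_inv₀_cobounded (α := ℂ))
    refine h1.congr' ?_
    rw [coclosedCompact_eq_cocompact]
    have : ({0} : Set ℂ)ᶜ ∈ cocompact ℂ := (isCompact_singleton).compl_mem_cocompact
    filter_upwards [this] with z hz
    exact (sinv_coe_of_ne hz).symm
  | coe z =>
    rw [OnePoint.continuousAt_coe]
    by_cases hz : z = 0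
    · subst hz
      show Tendsto (sinv ∘ (↑)) (𝓝 (0 : ℂ)) (𝓝 (sinv ((0 : ℂ) : OnePoint ℂ)))
      rw [sinv_zero]
      rw [← nhdsNE_sup_pure, tendsto_sup]
      constructor
      · have h1 : Tendsto (fun z : ℂ => ((z⁻¹ : ℂ) : OnePoint ℂ)) (𝓝[≠] 0)
            (𝓝 OnePoint.infty) := by
          have h2 : Tendsto (fun z : ℂ => (z : OnePoint ℂ)) (coclosedCompact ℂ)
            (𝓝 OnePoint.infty) := OnePoint.tendsto_coe_infty
          rw [coclosedCompact_eq_cocompact, ← Metric.cobounded_eq_cocompact] at h2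
          exact h2.comp tendsto_inv₀_nhdsNE_zero
        refine h1.congr' ?_
        filter_upwards [self_mem_nhdsWithin] with z hz
        exact (sinv_coe_of_ne hz).symm
      · rw [tendsto_pure_left]
        intro s hs
        show sinv ((0 : ℂ) : OnePoint ℂ) ∈ s
        rw [sinv_zero]
        exact mem_of_mem_nhds hs
    · have h1 : ContinuousAt (fun z : ℂ => ((z⁻¹ : ℂ) : OnePoint ℂ)) z :=
        (OnePoint.continuous_coe.continuousAt).comp (continuousAt_inv₀ hz)
      refine h1.congr ?_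
      filter_upwards [isOpen_ne.mem_nhds hz] with w hw
      exact (sinv_coe_of_ne hw).symm

/-- the sphere homeomorphism `z ↦ 1/z` -/
noncomputable def sinvH : OnePoint ℂ ≃ₜ OnePoint ℂ where
  toFun := sinv
  invFun := sinv
  left_inv := sinv_sinv
  right_inv := sinv_sinv
  continuous_toFun := continuous_sinv
  continuous_invFun := continuous_sinv

/-- unified local form -/
theorem HolAt.form {F : ℂ → OnePoint ℂ} {z : ℂ} (h : HolAt F z) :
    ∃ (σ : OnePoint ℂ ≃ₜ OnePoint ℂ) (g : ℂ → ℂ), (σ = Homeomorph.refl _ ∨ σ = sinvH) ∧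
      AnalyticAt ℂ g z ∧ ∀ᶠ w in 𝓝 z, F w = σ ((g w : ℂ) : OnePoint ℂ) := by
  obtain ⟨g, hg, h1 | h1⟩ := h
  · exact ⟨Homeomorph.refl _, g, Or.inl rfl, hg, h1⟩
  · exact ⟨sinvH, g, Or.inr rfl, hg, h1⟩

theorem HolAt.continuousAt {F : ℂ → OnePoint ℂ} {z : ℂ} (h : HolAt F z) : ContinuousAt F z := by
  obtain ⟨σ, g, -, hg, h1⟩ := HolAt.form h
  have h2 : ContinuousAt (fun w => σ ((g w : ℂ) : OnePoint ℂ)) z :=
    (σ.continuous.comp OnePoint.continuous_coe).continuousAt.comp hg.continuousAt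
  exact h2.congr (h1.mono fun w hw => hw.symm)

theorem HolAt.comp_analytic {F : ℂ → OnePoint ℂ} {g : ℂ → ℂ} {z : ℂ} (h : HolAt F (g z))
    (hg : AnalyticAt ℂ g z) : HolAt (fun w => F (g w)) z := by
  obtain ⟨k, hk, h1⟩ := h
  refine ⟨fun w => k (g w), AnalyticAt.fun_comp hk hg, ?_⟩
  have ht := hg.continuousAt.tendsto
  rcases h1 with h1 | h1
  · exact Or.inl (ht.eventually h1)
  · exact Or.inr (ht.eventually h1)

theorem HolAt.eventually {F : ℂ → OnePoint ℂ} {z : ℂ} (h : HolAt F z) : ∀ᶠ w in 𝓝 z, HolAt F w := by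
  obtain ⟨g, hg, h1 | h1⟩ := h
  · filter_upwards [hg.eventually_analyticAt, h1.eventually_nhds] with w hw1 hw2
    exact ⟨g, hw1, Or.inl hw2⟩
  · filter_upwards [hg.eventually_analyticAt, h1.eventually_nhds] with w hw1 hw2
    exact ⟨g, hw1, Or.inr hw2⟩

/-- local form: constancy transfers -/
theorem const_iff {F : ℂ → OnePoint ℂ} {σ : OnePoint ℂ ≃ₜ OnePoint ℂ} {g : ℂ → ℂ} {z : ℂ}
    (h : ∀ᶠ w in 𝓝 z, F w = σ ((g w : ℂ) : OnePoint ℂ)) :
    (∀ᶠ w in 𝓝 z, F w = F z) ↔ (∀ᶠ w in 𝓝 z, g w = g z) := by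
  have hz := h.self_of_nhds
  constructor
  · intro h1
    filter_upwards [h, h1] with w hw1 hw2
    rw [hw1, hz] at hw2
    exact OnePoint.coe_injective (σ.injective hw2)
  · intro h1
    filter_upwards [h, h1] with w hw1 hw2
    rw [hw1, hz, hw2]

/-- an admissible map is nowhere locally constant -/
theorem adm_nc {Γ : Set (OnePoint ℂ)} {F : ℂ → OnePoint ℂ} {R : ℝ} (h : Adm Γ F R) {z : ℂ}
    (hz : z ∈ ball (0 : ℂ) R) : ¬ (∀ᶠ w in 𝓝 z, F w = F z) := by
  intro hconst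
  obtain ⟨x, hx, y, hy, hxy⟩ := h.nc
  apply hxy
  have hpre : IsPreconnected (ball (0 : ℂ) R) := (convex_ball 0 R).isPreconnected
  set U : Set ℂ := {w | w ∈ ball (0 : ℂ) R ∧ ∀ᶠ v in 𝓝 w, F v = F w} with hU
  have hUo : IsOpen U := by
    rw [isOpen_iff_mem_nhds]
    rintro w ⟨hw1, hw2⟩
    filter_upwards [isOpen_ball.mem_nhds hw1, hw2.eventually_nhds, hw2] with v hv1 hv2 hv3
    refine ⟨hv1, ?_⟩
    filter_upwards [hv2] with u hu
    rw [hu, hv3]
  have hUc : ∀ w ∈ ball (0 : ℂ) R, w ∈ closure U → w ∈ U := by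
    intro w hw hcl
    refine ⟨hw, ?_⟩
    by_contra hnc
    obtain ⟨σ, g, -, hg, h1⟩ := HolAt.form (h.hol w hw)
    rw [const_iff h1] at hnc
    have hd := deriv_ne_punctured hg hnc
    have h2 : ∀ᶠ v in 𝓝 w, (v = w ∨ deriv g v ≠ 0) ∧
        ∀ᶠ u in 𝓝 v, F u = σ ((g u : ℂ) : OnePoint ℂ) := by
      rw [eventually_nhdsWithin_iff] at hd
      filter_upwards [hd, h1.eventually_nhds] with v hv1 hv2
      refine ⟨?_, hv2⟩
      by_cases hvw : v = w
      · exact Or.inl hvw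
      · exact Or.inr (hv1 hvw)
    obtain ⟨v, ⟨hv1, hv2⟩, hv3⟩ := mem_closure_iff_nhds.1 hcl _ h2
    have hv4 := (const_iff hv2).1 hv3.2
    rcases hv1 with rfl | hv1
    · exact hnc hv4
    · apply hv1
      have : g =ᶠ[𝓝 v] fun _ => g v := hv4
      rw [this.deriv_eq]
      simp
  have hsub : ball (0 : ℂ) R ⊆ U := by
    apply hpre.subset_of_closure_inter_subset hUo ⟨z, hz, hz, hconst⟩
    intro w hw
    exact hUc w hw.2 hw.1
  -- locally constant on a preconnected set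
  have hcont : ∀ w ∈ ball (0 : ℂ) R, ∀ᶠ v in 𝓝[ball (0 : ℂ) R] w, F w = F v := by
    intro w hw
    filter_upwards [nhdsWithin_le_nhds (hsub hw).2] with v hv
    exact hv.symm
  exact hpre.induction₂ (fun a b => F a = F b) hcont (fun a b c _ _ _ h1 h2 => h1.trans h2)
    (fun a b _ _ h1 => h1.symm) hx hy

end Pool.Agent.helper50.QD
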