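import Pool.Agent.helper50.QD.Sph

open Metric Set Topology Filter

namespace Pool.Agent.helper50.QD

open Pool.Agent.helper84.QD

/-- local inverse, packaged -/
theorem exists_inverse {h : ℂ → ℂ} {c : ℂ} (hh : AnalyticAt ℂ h c) (hd : deriv h c ≠ 0) :
    ∃ φ : ℂ → ℂ, AnalyticAt ℂ φ (h c) ∧ φ (h c) = c ∧ (∀ᶠ w in 𝓝 (h c), h (φ w) = w) ∧
      ∀ᶠ w in 𝓝 c, φ (h w) = w := by
  have hs := hh.hasStrictDerivAt
  exact ⟨_, hh.analyticAt_localInverse hd, HasStrictFDerivAt.localInverse_apply_image ..,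
    HasStrictDerivAt.eventually_right_inverse hs hd,
    HasStrictDerivAt.eventually_left_inverse hs hd⟩

instance : Nontrivial Circle := ⟨1, -1, by
  intro h
  have := congrArg (fun z : Circle => (z : ℂ)) h
  simp at this
  norm_num [Complex.ext_iff] at this⟩

/-- near a critical point values are taken twice -/
theorem two_preimages {g : ℂ → ℂ} {z : ℂ} (hg : AnalyticAt ℂ g z)
    (hnc : ¬ ∀ᶠ w in 𝓝 z, g w = g z) (hd : deriv g z = 0) {U : Set ℂ} (hU : U ∈ 𝓝 z) :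
    ∀ᶠ v in 𝓝[≠] (g z), ∃ w1 ∈ U, ∃ w2 ∈ U, w1 ≠ w2 ∧ g w1 = v ∧ g w2 = v := by
  have hf : AnalyticAt ℂ (fun w => g w - g z) z := hg.sub analyticAt_const
  have hf0 : ¬ ∀ᶠ w in 𝓝 z, g w - g z = 0 := by
    intro h0
    exact hnc (h0.mono fun w hw => sub_eq_zero.1 hw)
  obtain ⟨n, G, hG, hGz, hfe⟩ := hf.exists_eventuallyEq_pow_smul_nonzero_iff.2 hf0
  have hn0 : n ≠ 0 := by
    rintro rfl
    have := hfe.self_of_nhds
    simp at this
    exact hGz this.symm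
  have hn1 : n ≠ 1 := by
    rintro rfl
    have h1 : HasDerivAt (fun w => (w - z) ^ 1 • G w) (G z) z := by
      have e1 : HasDerivAt (fun w : ℂ => w - z) 1 z := (hasDerivAt_id z).sub_const z
      have e2 : HasDerivAt (fun w => (w - z) * G w) (1 * G z + (z - z) * deriv G z) z :=
        e1.mul hG.differentiableAt.hasDerivAt
      simpa only [pow_one, smul_eq_mul, one_mul, sub_self, zero_mul, add_zero] using e2
    have h2 : HasDerivAt (fun w => g w - g z) (G z) z := h1.congr_of_eventuallyEq hfe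
    have h3 : HasDerivAt (fun w => g w - g z) (deriv g z) z :=
      hg.differentiableAt.hasDerivAt.sub_const _
    rw [hd] at h3
    exact hGz (h2.unique h3)
  have hn2 : 2 ≤ n := by omega
  have hnC : (n : ℂ) ≠ 0 := Nat.cast_ne_zero.2 hn0
  obtain ⟨c, hc⟩ := IsAlgClosed.exists_pow_nat_eq (G z) (Nat.pos_of_ne_zero hn0)
  have hc0 : c ≠ 0 := by
    rintro rfl
    rw [zero_pow hn0] at hc
    exact hGz hc.symm
  set ρ : ℂ → ℂ := fun w => c * Complex.exp (Complex.log (G w / G z) / n) with hρ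
  have hρa : AnalyticAt ℂ ρ z := by
    have e1 : AnalyticAt ℂ (fun w => G w / G z) z := hG.div analyticAt_const hGz
    have e2 : AnalyticAt ℂ (fun w => Complex.log (G w / G z)) z := by
      apply e1.clog
      rw [div_self hGz]
      exact Complex.one_mem_slitPlane
    exact analyticAt_const.mul ((e2.div analyticAt_const hnC).cexp)
  have hρn : ∀ᶠ w in 𝓝 z, ρ w ^ n = G w := by
    filter_upwards [hG.continuousAt.eventually_ne hGz] with w hw
    simp only [hρ]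
    rw [mul_pow, hc, ← Complex.exp_nat_mul, mul_div_cancel₀ _ hnC, Complex.exp_log
      (div_ne_zero hw hGz), mul_div_cancel₀ _ hGz]
  have hρz : ρ z = c := by
    simp [hρ, div_self hGz]
  set ψ : ℂ → ℂ := fun w => (w - z) * ρ w with hψ
  have hψa : AnalyticAt ℂ ψ z := (analyticAt_id.sub analyticAt_const).mul hρa
  have hψz : ψ z = 0 := by simp [hψ]
  have hψd : deriv ψ z ≠ 0 := by
    have e1 : HasDerivAt (fun w : ℂ => w - z) 1 z := (hasDerivAt_id z).sub_const z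
    have e2 : HasDerivAt ψ (1 * ρ z + (z - z) * deriv ρ z) z :=
      e1.mul hρa.differentiableAt.hasDerivAt
    rw [e2.deriv, hρz]
    simpa using hc0
  obtain ⟨φ, hφa, hφ0, hφr, hφl⟩ := exists_inverse hψa hψd
  rw [hψz] at hφa hφ0 hφr
  have hφt : Tendsto φ (𝓝 0) (𝓝 z) := by
    have := hφa.continuousAt.tendsto
    rwa [hφ0] at this
  have hall : ∀ᶠ ζ in 𝓝 (0 : ℂ), φ ζ ∈ U ∧ ψ (φ ζ) = ζ ∧ g (φ ζ) = g z + ζ ^ n := by
    filter_upwards [hφt hU, hφr, hφt.eventually (hfe.and hρn)] with ζ h1 h2 h3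
    refine ⟨h1, h2, ?_⟩
    have h4 : ψ (φ ζ) ^ n = (φ ζ - z) ^ n * G (φ ζ) := by
      simp only [hψ]
      rw [mul_pow, h3.2]
    rw [h2] at h4
    have h5 := h3.1
    rw [smul_eq_mul, ← h4] at h5
    rw [← h5]
    ring
  obtain ⟨η, hη, hball⟩ := Metric.eventually_nhds_iff_ball.1 hall
  have hnear : ∀ᶠ v in 𝓝[≠] (g z), ‖v - g z‖ < η ^ n := by
    have : ball (g z) (η ^ n) ∈ 𝓝 (g z) := ball_mem_nhds _ (pow_pos hη n)
    filter_upwards [nhdsWithin_le_nhds this] with v hv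
    rwa [mem_ball, dist_eq_norm] at hv
  filter_upwards [hnear, self_mem_nhdsWithin] with v hv1 hv2
  have hvne : v - g z ≠ 0 := sub_ne_zero.2 hv2
  obtain ⟨ζ, hζ⟩ := IsAlgClosed.exists_pow_nat_eq (v - g z) (Nat.pos_of_ne_zero hn0)
  have hζ0 : ζ ≠ 0 := by
    rintro rfl
    rw [zero_pow hn0] at hζ
    exact hvne hζ.symm
  have hζn : ‖ζ‖ < η := by
    have : ‖ζ‖ ^ n < η ^ n := by rw [← norm_pow, hζ]; exact hv1
    exact lt_of_pow_lt_pow_left₀ n hη.le this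
  have hω := Complex.isPrimitiveRoot_exp n hn0
  set ω : ℂ := Complex.exp (2 * Real.pi * Complex.I / n) with hωd
  have hω1 : ω ≠ 1 := hω.ne_one (by omega)
  have hωn : ω ^ n = 1 := hω.pow_eq_one
  have hωnorm : ‖ω‖ = 1 := Complex.norm_eq_one_of_pow_eq_one hωn hn0
  obtain ⟨a1, a2, a3⟩ := hball ζ (by rwa [mem_ball_zero_iff])
  obtain ⟨b1, b2, b3⟩ := hball (ω * ζ) (by rw [mem_ball_zero_iff, norm_mul, hωnorm, one_mul]; exact hζn)
  refine ⟨φ ζ, a1, φ (ω * ζ), b1, ?_, ?_, ?_⟩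
  · intro he
    rw [← he, a2] at b2
    have : (ω - 1) * ζ = 0 := by linear_combination -b2
    rcases mul_eq_zero.1 this with h1 | h1
    · exact hω1 (sub_eq_zero.1 h1)
    · exact hζ0 h1
  · rw [a3, hζ]; ring
  · rw [b3, mul_pow, hωn, one_mul, hζ]; ring

/-- `F` restricted to the part over `Γ` has regular local forms -/
theorem adm_regular {Γ : Set (OnePoint ℂ)} (hΓ : IsJordanCurve Γ) {F : ℂ → OnePoint ℂ} {R : ℝ}
    (h : Adm Γ F R) {z : ℂ} (hz : z ∈ ovr Γ F (ball 0 R)) :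
    ∃ (σ : OnePoint ℂ ≃ₜ OnePoint ℂ) (g : ℂ → ℂ),
      AnalyticAt ℂ g z ∧ (∀ᶠ w in 𝓝 z, F w = σ ((g w : ℂ) : OnePoint ℂ)) ∧ deriv g z ≠ 0 := by
  obtain ⟨σ, g, -, hg, h1⟩ := HolAt.form (h.hol z hz.1)
  refine ⟨σ, g, hg, h1, ?_⟩
  intro hd
  have hnc := adm_nc h hz.1
  rw [const_iff h1] at hnc
  have hFz := h1.self_of_nhds
  obtain ⟨e, he, hei, her⟩ := hΓ
  obtain ⟨t0, ht0⟩ : F z ∈ range e := by rw [her]; exact hz.2
  -- finite coordinate near `F z`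
  have hU : {w | w ∈ ball (0 : ℂ) R ∧ F w = σ ((g w : ℂ) : OnePoint ℂ)} ∈ 𝓝 z := by
    filter_upwards [isOpen_ball.mem_nhds hz.1, h1] with w hw1 hw2
    exact ⟨hw1, hw2⟩
  have h2 := two_preimages hg hnc hd hU
  have h3 : ∀ᶠ t in 𝓝[≠] t0, ∃ v : ℂ, v ≠ g z ∧ e t = σ (v : OnePoint ℂ) ∧
      ∃ w1 ∈ {w | w ∈ ball (0 : ℂ) R ∧ F w = σ ((g w : ℂ) : OnePoint ℂ)},
      ∃ w2 ∈ {w | w ∈ ball (0 : ℂ) R ∧ F w = σ ((g w : ℂ) : OnePoint ℂ)},
        w1 ≠ w2 ∧ g w1 = v ∧ g w2 = v := by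
    have h4 : Tendsto (fun t => σ.symm (e t)) (𝓝 t0) (𝓝 ((g z : ℂ) : OnePoint ℂ)) := by
      have : σ.symm (e t0) = ((g z : ℂ) : OnePoint ℂ) := by
        rw [ht0, hFz, Homeomorph.symm_apply_apply]
      rw [← this]
      exact (σ.symm.continuous.comp he).continuousAt.tendsto
    rw [OnePoint.nhds_coe_eq] at h4
    rw [eventually_nhdsWithin_iff] at h2
    have h5 := h4.eventually (show ∀ᶠ p in map (fun v : ℂ => (v : OnePoint ℂ)) (𝓝 (g z)),
        ∃ v : ℂ, p = (v : OnePoint ℂ) ∧ (v ∈ ({g z}ᶜ : Set ℂ) →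
        ∃ w1 ∈ {w | w ∈ ball (0 : ℂ) R ∧ F w = σ ((g w : ℂ) : OnePoint ℂ)},
        ∃ w2 ∈ {w | w ∈ ball (0 : ℂ) R ∧ F w = σ ((g w : ℂ) : OnePoint ℂ)},
        w1 ≠ w2 ∧ g w1 = v ∧ g w2 = v) from by
      rw [eventually_map]
      filter_upwards [h2] with v hv
      exact ⟨v, rfl, hv⟩)
    filter_upwards [nhdsWithin_le_nhds h5, self_mem_nhdsWithin] with t ht1 ht2
    obtain ⟨v, hv1, hv2⟩ := ht1
    have hvne : v ≠ g z := by
      intro hvz
      apply ht2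
      apply hei
      rw [ht0, hFz, ← hvz, ← hv1, Homeomorph.apply_symm_apply]
    exact ⟨v, hvne, by rw [← hv1, Homeomorph.apply_symm_apply], hv2 hvne⟩
  obtain ⟨t, v, hv, htv, w1, hw1, w2, hw2, hne, e1, e2⟩ := h3.exists
  apply hne
  apply h.inj w1 hw1.1 w2 hw2.1
  · rw [hw1.2, e1, ← htv, ← her]
    exact mem_range_self t
  · rw [hw1.2, hw2.2, e1, e2]

theorem adm_locInj {Γ : Set (OnePoint ℂ)} (hΓ : IsJordanCurve Γ) {F : ℂ → OnePoint ℂ} {R : ℝ}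
    (h : Adm Γ F R) {z : ℂ} (hz : z ∈ ovr Γ F (ball 0 R)) :
    ∃ ε > 0, InjOn F (ball z ε) := by
  obtain ⟨σ, g, hg, h1, hd⟩ := adm_regular hΓ h hz
  obtain ⟨U, hU, hinj⟩ := locInj_of_deriv_ne hg hd
  have h2 : ∀ᶠ w in 𝓝 z, w ∈ U ∧ F w = σ ((g w : ℂ) : OnePoint ℂ) := by
    filter_upwards [hU, h1] with w hw1 hw2
    exact ⟨hw1, hw2⟩
  obtain ⟨ε, hε, hb⟩ := Metric.eventually_nhds_iff_ball.1 h2
  refine ⟨ε, hε, fun x hx y hy hxy => ?_⟩
  rw [(hb x hx).2, (hb y hy).2] at hxy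
  exact hinj (hb x hx).1 (hb y hy).1 (OnePoint.coe_injective (σ.injective hxy))

end Pool.Agent.helper50.QD
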